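import Pool.Agent.Helper7.PX.Goals
import Pool.Agent.Helper94.TU.RC

/-!
# MP_69be96_nt, project PX, packet RC: the number of rough points under a general weight
-/

set_option autoImplicit false

open Finset Filter Topology

open scoped Classical

namespace Pool.Agent.Helper53.PX

open Pool.Agent.Helper88.TU (Su size StmtTG)
open Pool.Agent.Helper88.PP (pr Rg om Sf SS uu vv ee LA VV QQ cost)
open Pool.Agent.Helper88.RR (gg ab TB nz VM)
open Pool.Agent.Helper88.GM (NI XI In)
open Pool.Agent.Helper88.CG (qE mE)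
open Pool.Agent.Helper85.RR (ab_nonneg mem_TB card_TB prod_TB gg_nonneg)
open Pool.Agent.Helper94.TU (gg_succ_le rr LA_ne_one rr_ne rr_zero rr_pos rr_eq_one vv_rr tot_rr
  max_rr nz_rr rr_injOn)
open Pool.Agent.Helper7.PX

/-- the label function without the roughness condition at `j` -/
noncomputable def ur {P : Finset ℕ} (j : P) (s : P → ℕ) (i : P) : ℕ :=
  if i = j ∧ s i = 1 then 0 else s i

theorem ur_rr {P : Finset ℕ} {j : P} {r : P → ℕ} (h1 : r j ≠ 1) : ur j (rr j r) = r := by
  funext i
  unfold ur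
  by_cases hij : i = j
  · subst hij
    by_cases h : r i = 0
    · rw [rr_zero h, if_pos ⟨rfl, rfl⟩, h]
    · rw [rr_pos h, if_neg (fun h2 => h1 h2.2)]
  · rw [rr_ne hij, if_neg (fun h2 => hij h2.1)]

/-- the factors `t` taken out -/
theorem prod_t {P : Finset ℕ} (t : ℝ) (f : ℕ → ℝ) (r : P → ℕ) :
    ∏ i : P, (if r i = 0 then 1 else t * f (r i)) =
      t ^ nz r * ∏ i : P, (if r i = 0 then 1 else f (r i)) := by
  have h1 : t ^ nz r = ∏ i : P, (if r i = 0 then 1 else t) := by
    unfold nz
    rw [Finset.prod_ite, Finset.prod_const_one, one_mul, Finset.prod_const]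
  rw [h1, ← Finset.prod_mul_distrib]
  refine Finset.prod_congr rfl fun i _ => ?_
  split_ifs
  · rw [one_mul]
  · rfl

/-- the powers of `t` are harmless -/
theorem tsmall (c t : ℝ) (hc : 0 < c) (ht : 1 ≤ t) : ∃ E0 : ℕ, ∀ E K : ℕ, E0 ≤ E → K ^ 2 ≤ E →
    (t ^ K) ^ 2 * Real.exp (-(c * E)) ≤ 1 := by
  refine ⟨⌈(2 * Real.log t / c) ^ 2⌉₊, fun E K hE hK => ?_⟩
  have ht0 : 0 < t := by linarith
  have hl : 0 ≤ Real.log t := Real.log_nonneg ht
  have h1 : (2 * Real.log t / c) ^ 2 ≤ (E : ℝ) := (Nat.le_ceil _).trans (by exact_mod_cast hE)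
  have h2 : 2 * Real.log t / c ≤ √(E : ℝ) := Real.le_sqrt_of_sq_le h1
  have h3 : (K : ℝ) ≤ √(E : ℝ) := Real.le_sqrt_of_sq_le (by exact_mod_cast hK)
  have hs : √(E : ℝ) * √(E : ℝ) = E := Real.mul_self_sqrt (Nat.cast_nonneg E)
  have hs0 : 0 ≤ √(E : ℝ) := Real.sqrt_nonneg _
  have h4 : 2 * Real.log t ≤ c * √(E : ℝ) := by
    rw [div_le_iff₀ hc] at h2
    linarith
  have h5 : 2 * (K * Real.log t) ≤ c * E := by
    calc 2 * (K * Real.log t) = K * (2 * Real.log t) := by ring
      _ ≤ √(E : ℝ) * (c * √(E : ℝ)) := mul_le_mul h3 h4 (by positivity) hs0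
      _ = c * E := by rw [← hs]; ring_nf; rw [Real.sqrt_sq hs0]
  have h6 : (t ^ K) ^ 2 = Real.exp (2 * (K * Real.log t)) := by
    rw [← Real.rpow_natCast t K, Real.rpow_def_of_pos ht0, ← Real.exp_nat_mul]
    congr 1
    push_cast
    ring
  rw [h6, ← Real.exp_add]
  apply Real.exp_le_one_iff.2
  linarith

/-- Packet `RC`. -/
theorem rc (h : StmtTG) : Pool.Agent.Helper7.PX.StmtRC := by
  intro t ht
  obtain ⟨c, hc, E1, hTG⟩ := h
  obtain ⟨E2, hsz⟩ := size
  obtain ⟨c', hc', E3, hVP⟩ := Pool.Agent.Helper88.CG.vp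
  obtain ⟨E4, hts⟩ := tsmall c t hc ht
  refine ⟨max (max E1 E2) (max (max E3 E4) 1), ?_⟩
  intro E z x y hE hS b hb P hP hPo a ha
  have hE1 : E1 ≤ E := ((le_max_left _ _).trans (le_max_left _ _)).trans hE
  have hE2 : E2 ≤ E := ((le_max_right _ _).trans (le_max_left _ _)).trans hE
  have hE3 : E3 ≤ E := (((le_max_left _ _).trans (le_max_left _ _)).trans (le_max_right _ _)).trans hE
  have hE4 : E4 ≤ E := (((le_max_right _ _).trans (le_max_left _ _)).trans (le_max_right _ _)).trans hE
  obtain ⟨a1, a2, a3, a4, a5, a6, a7, a8, a9, a10, a11, a12, a13, a14⟩ := hsz E z x y hE2 hS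
  obtain ⟨v1, v2, v3, v4, v5, v6⟩ := hVP E hE3
  obtain ⟨v7, -⟩ := v6 z (by omega)
  have hz2 : 2 ≤ z := by omega
  have hE1' : 1 ≤ E := ((le_max_right _ _).trans (le_max_right _ _)).trans hE
  have hPy : P.card ≤ y := by
    refine (Finset.card_le_card hP).trans ?_
    simp
  have ht0 : 0 < t := by linarith
  have hq1 : 1 ≤ qE E := Nat.one_le_two_pow
  unfold Bd at ha
  unfold GW GD gw TE
  unfold TE at ha
  set m := mE E with hm
  set q := qE E with hq
  set M := E / 16 with hM
  have hqm : q * m ≤ M := by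
    refine le_trans ?_ v2
    apply Nat.mul_le_mul_right
    exact Nat.le_self_pow (by norm_num) q
  have hK : (M / m + 2) ^ 3 ≤ E := by
    refine le_trans ?_ v4
    calc (M / m + 2) ^ 3 ≤ (M / m + 2) ^ 6 :=
          Nat.pow_le_pow_right (Nat.succ_pos _) (by norm_num)
      _ ≤ (2 * (M / m + 2)) ^ 6 := Nat.pow_le_pow_left (Nat.le_mul_of_pos_left _ two_pos) 6
  have hK2 : (M / m + 1) ^ 2 ≤ E := by
    refine le_trans ?_ hK
    calc (M / m + 1) ^ 2 ≤ (M / m + 2) ^ 2 := Nat.pow_le_pow_left (by omega) 2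
      _ ≤ (M / m + 2) ^ 3 := Nat.pow_le_pow_right (Nat.succ_pos _) (by norm_num)
  set T : ℝ := t ^ (M / m + 1) with hT
  have hT0 : 0 < T := pow_pos ht0 _
  have hXI : 0 ≤ XI (x / 32) x (QQ x) := by
    unfold XI
    positivity
  have hom0 : 0 ≤ om y z := by
    unfold om
    refine Finset.prod_nonneg fun p hp => ?_
    have h1 : y < p := (Finset.mem_Ioc.1 (Finset.mem_filter.1 hp).1).1
    have h2 : (0 : ℝ) < p := by exact_mod_cast (Nat.zero_le y).trans_lt h1
    have h3 : 1 / (p : ℝ) ≤ 1 := by
      rw [div_le_one h2]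
      exact_mod_cast (by omega : 1 ≤ p)
    linarith
  have hIn : In x (x / 32) x (QQ x) b := ⟨dvd_rfl, hb, by omega⟩
  have hex : T ^ 2 * Real.exp (-(c * E)) ≤ 1 := hts E (M / m + 1) hE4 hK2
  have hne1 : ∀ j : P, ∀ r ∈ TB m q M z P, r j ≠ 1 := by
    intro j r hr
    rcases (mem_TB hr).1 j with h | h
    · omega
    · exact LA_ne_one v1 hz2 h
  -- the bound for one point
  have key : ∀ j : P, ∑ n ∈ NI (x / 32) x (QQ x) b,
      (if Rg y z (n + (j : ℕ)) then 1 else 0) *
        (∑ r ∈ TB m q M z P, a r * ∏ i : P, vv y z (r i) (n + (i : ℕ))) ^ 2 ≤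
      XI (x / 32) x (QQ x) * (∑ r ∈ TB m q M z P,
        (om y z + (if r j = 0 then 0 else 1)) *
          (a r ^ 2 * (gg y z (nz r) * ∏ i : P, (if r i = 0 then 1 else (Nat.totient (r i) : ℝ))))) +
        om y z * XI (x / 32) x (QQ x) := by
    intro j
    have hres := hTG E z x y hE1 hS (x / 32) x (QQ x) b hIn m q (M / m + 2) (E / 16) v1 hqm v7
      hK (by omega) le_rfl P hP hPo ((TB m q M z P).image (rr j)) (fun s => a (ur j s) / T) ∅ {j}
      (by simp) (by simp) (by simp) ?_ ?_ ?_ ?_ ?_ ?_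
    · have e1 : ∀ n, ∑ r ∈ (TB m q M z P).image (rr j),
          a (ur j r) / T * ∏ i, vv y z (r i) (n + (i : ℕ)) =
          (if Rg y z (n + (j : ℕ)) then 1 else 0) *
            (∑ r ∈ TB m q M z P, a r * ∏ i : P, vv y z (r i) (n + (i : ℕ))) / T := by
        intro n
        rw [Finset.sum_image (rr_injOn j (hne1 j)), Finset.mul_sum, Finset.sum_div]
        refine Finset.sum_congr rfl fun r hr => ?_
        rw [ur_rr (hne1 j r hr), vv_rr]
        ring
      have e2 : ∑ r ∈ (TB m q M z P).image (rr j), (a (ur j r) / T) ^ 2 *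
          (gg y z (nz r) * ∏ i, (if r i = 0 then 1 else (Nat.totient (r i) : ℝ))) ≤
          (∑ r ∈ TB m q M z P, (om y z + (if r j = 0 then 0 else 1)) *
            (a r ^ 2 * (gg y z (nz r) *
              ∏ i : P, (if r i = 0 then 1 else (Nat.totient (r i) : ℝ))))) / T ^ 2 := by
        rw [Finset.sum_image (rr_injOn j (hne1 j)), Finset.sum_div]
        refine Finset.sum_le_sum fun r hr => ?_
        rw [ur_rr (hne1 j r hr), tot_rr, nz_rr]
        have e4 : (0 : ℝ) ≤ ∏ i : P, (if r i = 0 then 1 else (Nat.totient (r i) : ℝ)) := by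
          refine Finset.prod_nonneg fun i _ => ?_
          split_ifs <;> positivity
        have e5 : gg y z (nz r + (if r j = 0 then 1 else 0)) ≤
            (om y z + (if r j = 0 then 0 else 1)) * gg y z (nz r) := by
          have e6 : nz r ≤ M / m := card_TB v1 hz2 hr
          have e7 : M / m ≤ M := Nat.div_le_self _ _
          have e8 : E ≤ E ^ 2 := Nat.le_self_pow (by norm_num) E
          have e9 : 0 ≤ gg y z (nz r) := gg_nonneg (by omega)
          split_ifs with h0
          · rw [add_zero]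
            exact gg_succ_le (by omega)
          · rw [add_zero, add_mul, one_mul]
            have := mul_nonneg hom0 e9
            linarith
        rw [div_pow, div_mul_eq_mul_div]
        apply div_le_div_of_nonneg_right _ (by positivity)
        calc a r ^ 2 * (gg y z (nz r + (if r j = 0 then 1 else 0)) *
              ∏ i : P, (if r i = 0 then 1 else (Nat.totient (r i) : ℝ)))
            ≤ a r ^ 2 * ((om y z + (if r j = 0 then 0 else 1)) * gg y z (nz r) *
              ∏ i : P, (if r i = 0 then 1 else (Nat.totient (r i) : ℝ))) :=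
              mul_le_mul_of_nonneg_left (mul_le_mul_of_nonneg_right e5 e4) (sq_nonneg _)
          _ = _ := by ring
      have e10 : ∀ n, ((if Rg y z (n + (j : ℕ)) then (1 : ℝ) else 0) *
          (∑ r ∈ TB m q M z P, a r * ∏ i : P, vv y z (r i) (n + (i : ℕ))) / T) ^ 2 =
          ((if Rg y z (n + (j : ℕ)) then 1 else 0) *
          (∑ r ∈ TB m q M z P, a r * ∏ i : P, vv y z (r i) (n + (i : ℕ))) ^ 2) / T ^ 2 := by
        intro n
        split_ifs <;> ring
      simp only [e1, e10] at hres
      rw [← Finset.sum_div] at hres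
      have e11 := (abs_le.1 hres).2
      have e12 := mul_le_mul_of_nonneg_left e2 hXI
      have e13 : T ^ 2 * (Real.exp (-(c * E)) *
          om y z ^ ((∅ : Finset P).card + ({j} : Finset P).card) *
          XI (x / 32) x (QQ x)) ≤ om y z * XI (x / 32) x (QQ x) := by
        rw [Finset.card_empty, Finset.card_singleton, zero_add, pow_one]
        calc T ^ 2 * (Real.exp (-(c * E)) * om y z * XI (x / 32) x (QQ x))
            = (T ^ 2 * Real.exp (-(c * E))) * (om y z * XI (x / 32) x (QQ x)) := by ring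
          _ ≤ 1 * (om y z * XI (x / 32) x (QQ x)) :=
              mul_le_mul_of_nonneg_right hex (mul_nonneg hom0 hXI)
          _ = _ := one_mul _
      have hT2 : (0 : ℝ) < T ^ 2 := by positivity
      have e14 : (∑ n ∈ NI (x / 32) x (QQ x) b,
          (if Rg y z (n + (j : ℕ)) then (1 : ℝ) else 0) *
            (∑ r ∈ TB m q M z P, a r * ∏ i : P, vv y z (r i) (n + (i : ℕ))) ^ 2) / T ^ 2 ≤
          XI (x / 32) x (QQ x) * ((∑ r ∈ TB m q M z P, (om y z + (if r j = 0 then 0 else 1)) *
            (a r ^ 2 * (gg y z (nz r) *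
              ∏ i : P, (if r i = 0 then 1 else (Nat.totient (r i) : ℝ))))) / T ^ 2) +
          Real.exp (-(c * E)) * om y z ^ ((∅ : Finset P).card + ({j} : Finset P).card) *
          XI (x / 32) x (QQ x) := by linarith
      have e15 := mul_le_mul_of_nonneg_left e14 hT2.le
      rw [mul_div_cancel₀ _ hT2.ne', mul_add] at e15
      have e16 : T ^ 2 * (XI (x / 32) x (QQ x) *
          ((∑ r ∈ TB m q M z P, (om y z + (if r j = 0 then 0 else 1)) *
            (a r ^ 2 * (gg y z (nz r) *
              ∏ i : P, (if r i = 0 then 1 else (Nat.totient (r i) : ℝ))))) / T ^ 2)) =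
          XI (x / 32) x (QQ x) * (∑ r ∈ TB m q M z P, (om y z + (if r j = 0 then 0 else 1)) *
            (a r ^ 2 * (gg y z (nz r) *
              ∏ i : P, (if r i = 0 then 1 else (Nat.totient (r i) : ℝ))))) := by
        field_simp
      rw [e16] at e15
      linarith
    · intro r hr i _ hiG
      obtain ⟨s, hs, rfl⟩ := Finset.mem_image.1 hr
      rw [rr_ne (fun h => hiG (Finset.mem_singleton.2 h))]
      exact (mem_TB hs).1 i
    · intro r _ i hi
      exact absurd hi (Finset.notMem_empty i)
    · intro r hr i hi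
      obtain ⟨s, hs, rfl⟩ := Finset.mem_image.1 hr
      rw [Finset.mem_singleton] at hi
      subst hi
      by_cases h0 : s i = 0
      · left
        exact rr_zero h0
      · right
        rw [rr_pos h0]
        exact ((mem_TB hs).1 i).resolve_left h0
    · intro r hr
      obtain ⟨s, hs, rfl⟩ := Finset.mem_image.1 hr
      rw [nz_rr]
      have h1 : nz s ≤ M / m := card_TB v1 hz2 hs
      split_ifs <;> omega
    · intro r hr
      obtain ⟨s, hs, rfl⟩ := Finset.mem_image.1 hr
      rw [max_rr]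
      exact (prod_TB hz2 hs).trans (Nat.pow_le_pow_right (by omega) (by omega))
    · intro s' hs'
      obtain ⟨r, hr, rfl⟩ := Finset.mem_image.1 hs'
      have f1 : ∏ i : P, (if i ∈ (∅ : Finset P) then
          1 / (VM (E / 16) z * (Nat.totient (rr j r i) : ℝ)) else
          if i ∈ ({j} : Finset P) then (if rr j r i = 1 then 1 else ab m q z (rr j r i)) else
          if rr j r i = 0 then 1 else ab m q z (rr j r i)) =
          ∏ i : P, (if r i = 0 then 1 else ab m q z (r i)) := by
        refine Finset.prod_congr rfl fun i _ => ?_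
        rw [if_neg (Finset.notMem_empty i)]
        by_cases hij : i = j
        · subst hij
          rw [if_pos (Finset.mem_singleton_self i)]
          by_cases h0 : r i = 0
          · rw [rr_zero h0, if_pos rfl, if_pos h0]
          · rw [rr_pos h0, if_neg (hne1 i r hr), if_neg h0]
        · rw [if_neg (fun h => hij (Finset.mem_singleton.1 h)), rr_ne hij]
      rw [f1]
      have f2 : |a (ur j (rr j r)) / T| = |a r| / T := by
        rw [ur_rr (hne1 j r hr), abs_div, abs_of_pos hT0]
      rw [f2, div_le_iff₀ hT0]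
      have f3 := ha r hr
      rw [prod_t t (ab m q z) r] at f3
      have f4 : nz r ≤ M / m := card_TB v1 hz2 hr
      have f5 : t * t ^ nz r ≤ T := by
        rw [hT, ← pow_succ']
        exact pow_le_pow_right₀ ht (by omega)
      have f6 : 0 ≤ ∏ i : P, (if r i = 0 then 1 else ab m q z (r i)) := by
        refine Finset.prod_nonneg fun i _ => ?_
        split_ifs
        · exact zero_le_one
        · exact ab_nonneg _ _ _ _
      calc |a r| ≤ t * (t ^ nz r * ∏ i : P, (if r i = 0 then 1 else ab m q z (r i))) := f3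
        _ = (t * t ^ nz r) * ∏ i : P, (if r i = 0 then 1 else ab m q z (r i)) := by ring
        _ ≤ T * ∏ i : P, (if r i = 0 then 1 else ab m q z (r i)) :=
            mul_le_mul_of_nonneg_right f5 f6
        _ = _ := mul_comm _ _
  -- the sum over the points
  have hcount : ∀ n, ((P.filter (fun h => Rg y z (n + h))).card : ℝ) =
      ∑ j : P, (if Rg y z (n + (j : ℕ)) then (1 : ℝ) else 0) := by
    intro n
    rw [Finset.card_filter, Nat.cast_sum,
      ← Finset.sum_coe_sort P (fun i => (((if Rg y z (n + i) then 1 else 0) : ℕ) : ℝ))]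
    refine Finset.sum_congr rfl fun j _ => ?_
    split_ifs <;> simp
  have hsum : ∑ n ∈ NI (x / 32) x (QQ x) b,
      (∑ r ∈ TB m q M z P, a r * ∏ i : P, vv y z (r i) (n + (i : ℕ))) ^ 2 *
        ((P.filter (fun h => Rg y z (n + h))).card : ℝ) =
      ∑ j : P, ∑ n ∈ NI (x / 32) x (QQ x) b,
        (if Rg y z (n + (j : ℕ)) then 1 else 0) *
          (∑ r ∈ TB m q M z P, a r * ∏ i : P, vv y z (r i) (n + (i : ℕ))) ^ 2 := by
    rw [Finset.sum_comm]
    refine Finset.sum_congr rfl fun n _ => ?_
    rw [hcount n, Finset.mul_sum]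
    refine Finset.sum_congr rfl fun j _ => ?_
    rw [mul_comm]
  rw [hsum]
  have hnz : ∀ r : P → ℕ, ∑ j : P, (om y z + (if r j = 0 then (0 : ℝ) else 1)) =
      P.card * om y z + nz r := by
    intro r
    rw [Finset.sum_add_distrib, Finset.sum_const, nsmul_eq_mul, Finset.card_univ,
      Fintype.card_coe]
    congr 1
    unfold nz
    rw [Finset.card_filter, Nat.cast_sum]
    refine Finset.sum_congr rfl fun j _ => ?_
    by_cases h0 : r j = 0
    · rw [if_pos h0, if_neg (fun h1 => h1 h0), Nat.cast_zero]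
    · rw [if_neg h0, if_pos h0, Nat.cast_one]
  have hw0 : ∀ r ∈ TB m q M z P, (0 : ℝ) ≤
      a r ^ 2 * (gg y z (nz r) * ∏ i : P, (if r i = 0 then 1 else (Nat.totient (r i) : ℝ))) := by
    intro r hr
    have e6 : nz r ≤ M / m := card_TB v1 hz2 hr
    have e7 : M / m ≤ M := Nat.div_le_self _ _
    have e8 : E ≤ E ^ 2 := Nat.le_self_pow (by norm_num) E
    refine mul_nonneg (sq_nonneg _) (mul_nonneg (gg_nonneg (by omega)) ?_)
    refine Finset.prod_nonneg fun i _ => ?_
    split_ifs <;> positivity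
  calc ∑ j : P, ∑ n ∈ NI (x / 32) x (QQ x) b,
        (if Rg y z (n + (j : ℕ)) then 1 else 0) *
          (∑ r ∈ TB m q M z P, a r * ∏ i : P, vv y z (r i) (n + (i : ℕ))) ^ 2
      ≤ ∑ j : P, (XI (x / 32) x (QQ x) * (∑ r ∈ TB m q M z P,
          (om y z + (if r j = 0 then 0 else 1)) *
          (a r ^ 2 * (gg y z (nz r) *
            ∏ i : P, (if r i = 0 then 1 else (Nat.totient (r i) : ℝ))))) +
          om y z * XI (x / 32) x (QQ x)) := Finset.sum_le_sum fun j _ => key j
    _ = XI (x / 32) x (QQ x) * (∑ r ∈ TB m q M z P, (P.card * om y z + nz r) *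
          (a r ^ 2 * (gg y z (nz r) *
            ∏ i : P, (if r i = 0 then 1 else (Nat.totient (r i) : ℝ))))) +
          P.card * om y z * XI (x / 32) x (QQ x) := by
        rw [Finset.sum_add_distrib, ← Finset.mul_sum, Finset.sum_comm, Finset.sum_const,
          nsmul_eq_mul, Finset.card_univ, Fintype.card_coe]
        congr 1
        · congr 1
          refine Finset.sum_congr rfl fun r _ => ?_
          rw [← Finset.sum_mul, hnz r]
        · ring
    _ ≤ XI (x / 32) x (QQ x) * ((P.card * om y z + E) * ∑ r ∈ TB m q M z P,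
          (a r ^ 2 * (gg y z (nz r) *
            ∏ i : P, (if r i = 0 then 1 else (Nat.totient (r i) : ℝ))))) +
          P.card * om y z * XI (x / 32) x (QQ x) := by
        have h1 : ∑ r ∈ TB m q M z P, (P.card * om y z + nz r) *
          (a r ^ 2 * (gg y z (nz r) *
            ∏ i : P, (if r i = 0 then 1 else (Nat.totient (r i) : ℝ)))) ≤
            (P.card * om y z + E) * ∑ r ∈ TB m q M z P,
          (a r ^ 2 * (gg y z (nz r) *
            ∏ i : P, (if r i = 0 then 1 else (Nat.totient (r i) : ℝ)))) := by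
          rw [Finset.mul_sum]
          refine Finset.sum_le_sum fun r hr => ?_
          apply mul_le_mul_of_nonneg_right _ (hw0 r hr)
          have h2 : nz r ≤ M / m := card_TB v1 hz2 hr
          have h3 : M / m ≤ M := Nat.div_le_self _ _
          have h4 : nz r ≤ E := by omega
          have h5 : (nz r : ℝ) ≤ E := by exact_mod_cast h4
          linarith
        have h2 := mul_le_mul_of_nonneg_left h1 hXI
        linarith
    _ ≤ XI (x / 32) x (QQ x) * (P.card * om y z + E) * ((∑ r ∈ TB m q M z P,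
          (a r ^ 2 * (gg y z (nz r) *
            ∏ i : P, (if r i = 0 then 1 else (Nat.totient (r i) : ℝ))))) + 1) := by
        have h1 : 0 ≤ XI (x / 32) x (QQ x) * (E : ℝ) := mul_nonneg hXI (Nat.cast_nonneg E)
        linarith

end Pool.Agent.Helper53.PX
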